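import Pool.Agent.V1148.Bor.G

set_option autoImplicit false
open Polynomial

/-!
# Equality cases in Borcea's inequality for zeros on a circle about their centroid
-/

namespace Pool.Agent.Results.MP_c113aa_an.CentredCircle

open Pool.Agent.V1148.Bor

/-- For `p > 1` and a polynomial `F` of degree `n ≥ 2` with all zeros on one circle centred at their
centroid, `h(F, F') ≤ σ_p(F)`, and equality holds only for `F = a (z - c)^n - b`. -/
theorem result (F : ℂ[X]) (hn : 2 ≤ F.natDegree) (hF : CentredCircle F) (p : ℝ) (hp : 1 < p) :
    hdist F ≤ sigma p F ∧ (hdist F = sigma p F → IsPure F) :=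
  ⟨(borcea_circle hn hF).trans (sigma_one_le (by omega) hp.le),
    fun hE => equality hn one_pos hp (borcea_circle hn hF) hE⟩

end Pool.Agent.Results.MP_c113aa_an.CentredCircle
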