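import Pool.Agent.V1148.Bor.K

set_option autoImplicit false
open Polynomial

/-!
# The equality conjecture and Borcea's inequality are equivalent, polynomial by polynomial

For every `F` of degree `n ≥ 2` and `q ≥ 1`: the characterisation `h(F, F') = σ_p(F)` iff
`F = a (z - c)^n - b` holds for `F` and all `p > q` if and only if `h(F, F') ≤ σ_p(F)` for all
`p ≥ q`.

Proof: if `h(F, F') = σ_p(F)` and `h(F, F') ≤ σ_q(F)`, `q < p`, then `σ_p = σ_q`, so all zeros are on
a circle of radius `h(F, F')` and the equality case of Sendov's conjecture (starting file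
`MP_f0bc87_an.AllNegativeExponents`) applies. Conversely `p ↦ σ_p(F)` is continuous, and by the same
equality case `σ_p(F) ≥ h(F, F')` for large `p`.
-/

namespace Pool.Agent.Results.MP_c113aa_an.EquivalentToBorcea

open Pool.Agent.V1148.Bor

/-- For `F` of degree `n ≥ 2` and `q ≥ 1`: for all `p > q` one has `h(F, F') = σ_p(F)` iff
`F = a (z - c)^n - b`, if and only if `h(F, F') ≤ σ_p(F)` for all `p ≥ q`. -/
theorem result (F : ℂ[X]) (hn : 2 ≤ F.natDegree) (q : ℝ) (hq : 1 ≤ q) :
    (∀ p : ℝ, q < p → (hdist F = sigma p F ↔ IsPure F)) ↔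
      ∀ p : ℝ, q ≤ p → hdist F ≤ sigma p F :=
  equivalence' hn hq

end Pool.Agent.Results.MP_c113aa_an.EquivalentToBorcea
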